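import Mathlib
import Pool.Agent.Lib.MP_663568_h6.AbsQ
import Pool.Agent.Lib.MP_663568_h6.CorrQ
import Pool.Agent.Lib.MP_663568_nt.Final

/-!
# Q1 of MP_663568_nt for small sets of top coefficients which depend on the window

`G` is a topological group with a filtration `G = A 1 ≥ A 2 ≥ … ≥ A t = 1`, `⁅A i, A j⁆ ≤ A (i + j)`,
and `Γ` a closed subgroup such that each `A i` is a compact set times `Γ ∩ A i` (a filtered
nilmanifold of degree less than `t`; by Malcev every nilmanifold of step less than `t`, with the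
lower central series, is one).  The supremum in the average of Q1 is over all `g, x ∈ G` and all real
polynomials `P` of degree at most `t`, for the sequences `f(gⁿ x Γ) e(P(n))`, such that the `t`-th
coefficient of `P` is in a set `𝒜` of small measure modulo `1` and not in the major arcs.  The set
may depend on `H`, on `N` and on the block `4 ^ j ≤ n < 4 ^ (j + 1)` of the window, and may consist of
a power of `H` of pieces.
-/

set_option autoImplicit false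
open Finset

namespace Pool.Agent.Lib.MP_663568_sm

open Pool.Agent.Lib.MP_663568_nt Pool.Agent.Lib.MP_663568_nt.Katai Pool.Agent.Lib.MP_663568_nt.Tw
  Pool.Agent.Lib.MP_663568_nt.Nul Pool.Agent.Lib.MP_663568_nt.H6

/-- The triples `(g, x, P)` such that `P` is of degree at most `t` and its `t`-th coefficient is an
integer plus an element of `𝒜` and outside the major arcs. -/
def Index (G : Type) (t : ℕ) (𝒜 : Set ℝ) (Q δ : ℝ) : Set (G × G × Polynomial ℝ) :=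
  {i | i.2.2.natDegree ≤ t ∧ (∃ α ∈ 𝒜, ∃ z : ℤ, i.2.2.coeff t = α + z) ∧
    ∀ q : ℕ, 1 ≤ q → (q : ℝ) ≤ Q → ∀ b : ℤ, δ ≤ |(q : ℝ) * i.2.2.coeff t - b|}

/-- **Small sets of frequencies.** -/
theorem result (G : Type) [Group G] [TopologicalSpace G] [IsTopologicalGroup G]
    (t : ℕ) (ht : 0 < t)
    (A : ℕ → Subgroup G) (hanti : Antitone A) (hcomm : ∀ i j, ⁅A i, A j⁆ ≤ A (i + j))
    (hA1 : A 1 = ⊤) (hAt : A t = ⊥)
    (Γ : Subgroup G) (hΓ : IsClosed (Γ : Set G))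
    (hcpt : ∀ i, ∃ C : Set G, IsCompact C ∧ (∀ c ∈ C, c ∈ A i) ∧
      ∀ x ∈ A i, ∃ c ∈ C, ∃ γ ∈ Γ, x = c * γ)
    (f : G ⧸ Γ → ℂ) (hf : Continuous f) (ε : ℝ) (hε : 0 < ε) :
    ∃ v c : ℝ, 0 < v ∧ 0 < c ∧ ∃ C H₀ : ℕ, ∀ a : ℕ → ℂ, (∀ n, ‖a n‖ ≤ 1) →
      (∀ p k : ℕ, p.Prime → ¬ p ∣ k → a (p * k) = a p * a k) →
    ∀ N H : ℕ, H₀ ≤ H → H ≤ N → ∀ R δ : ℝ, 1 ≤ R → 0 < δ → δ ≤ 1 → R / δ ≤ (H : ℝ) ^ c →
    ∀ 𝒜 : ℕ → Set ℝ,
      (∀ j, MeasureTheory.volume {y : ℝ | y ∈ Set.Icc 0 1 ∧ ∃ α ∈ 𝒜 j, ∃ b : ℤ,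
        |α - y - b| ≤ 1 / R} ≤ ENNReal.ofReal v) →
      ∑ n ∈ Finset.Icc 1 N, (1 / (n : ℝ)) *
        ⨆ i : {i : G × G × Polynomial ℝ // i ∈ Index G t (𝒜 (Nat.log 4 n)) (C * R ^ C) δ},
          ‖∑ h ∈ Finset.Icc 1 H,
            f (QuotientGroup.mk (i.1.1 ^ (n + h) * i.1.2.1) : G ⧸ Γ) *
            Complex.exp (2 * Real.pi * Complex.I * ((i.1.2.2.eval ((n + h : ℕ) : ℝ) : ℝ) : ℂ)) *
              a (n + h)‖
      ≤ ε * (H : ℝ) * Real.log (N : ℝ) := by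
  classical
  -- a bound for `f`
  have h0 : A 0 = ⊤ := top_le_iff.mp (hA1 ▸ hanti (Nat.zero_le 1))
  have hX : CompactSpace (G ⧸ Γ) := by
    obtain ⟨C, hC1, hC2, hC3⟩ := hcpt 0
    refine ⟨?_⟩
    have : (Set.univ : Set (G ⧸ Γ)) = (fun g : G => (g : G ⧸ Γ)) '' C := by
      ext x
      simp only [Set.mem_univ, true_iff]
      obtain ⟨g, rfl⟩ := QuotientGroup.mk_surjective x
      obtain ⟨c, hc, γ, hγ, e⟩ := hC3 g (by rw [h0]; trivial)
      exact ⟨c, hc, (coe_eq_of_mul Γ _ _ _ hγ e).symm⟩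
    rw [this]
    exact hC1.image QuotientGroup.continuous_mk
  obtain ⟨B, hB⟩ : ∃ B : ℝ, ∀ x, ‖f x‖ ≤ B := by
    have h1 : IsCompact (Set.range fun x => ‖f x‖) := isCompact_range (by fun_prop)
    obtain ⟨B, hB⟩ := h1.bddAbove
    exact ⟨B, fun x => hB ⟨x, rfl⟩⟩
  have hB0 : 0 ≤ B := (norm_nonneg _).trans (hB (QuotientGroup.mk 1))
  have hB1 : 0 < B + 1 := by linarith
  set f' : G ⧸ Γ → ℂ := fun x => ((B + 1 : ℝ) : ℂ)⁻¹ * f x with hf'
  have hf'c : Continuous f' := by fun_prop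
  have hf'1 : ∀ x, ‖f' x‖ ≤ 1 := by
    intro x
    rw [hf']
    beta_reduce
    rw [norm_mul, norm_inv, Complex.norm_real, Real.norm_eq_abs, abs_of_pos hB1,
      inv_mul_le_iff₀ hB1, mul_one]
    linarith [hB x]
  -- the family
  set I : Type := {i : G × G × Polynomial ℝ // i.2.2.natDegree ≤ t} with hI
  set F : I → ℕ → ℂ := fun i n =>
    ee (i.1.2.2.eval (n : ℝ)) * f' ((i.1.1 ^ n * i.1.2.1 : G) : G ⧸ Γ) with hF
  set ld : I → ℝ := fun i => i.1.2.2.coeff t with hld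
  have hF1 : ∀ i n, ‖F i n‖ ≤ 1 := fun i n => by
    rw [hF]; beta_reduce
    rw [norm_mul]
    exact mul_le_one₀ (norm_ee _).le (norm_nonneg _) (hf'1 _)
  have hdil : Dil1 F ld t := by
    rintro ⟨⟨g, x, P⟩, hP⟩ d hd
    have hcf : ∀ n, (P.comp (Polynomial.C (d : ℝ) * Polynomial.X)).coeff n =
        P.coeff n * (d : ℝ) ^ n := fun n => Polynomial.comp_C_mul_X_coeff
    refine ⟨⟨(g ^ d, x, P.comp (Polynomial.C (d : ℝ) * Polynomial.X)), ?_⟩, fun n => ?_, 0, ?_⟩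
    · change (P.comp (Polynomial.C (d : ℝ) * Polynomial.X)).natDegree ≤ t
      rw [Polynomial.natDegree_le_iff_coeff_eq_zero]
      intro n hn
      rw [hcf, Polynomial.coeff_eq_zero_of_natDegree_lt (lt_of_le_of_lt hP hn), zero_mul]
    · change ee _ * f' (((g ^ d) ^ n * x : G) : G ⧸ Γ) = ee _ * f' ((g ^ (d * n) * x : G) : G ⧸ Γ)
      rw [pow_mul]
      congr 2
      simp [Polynomial.eval_comp]
    · change (P.comp (Polynomial.C (d : ℝ) * Polynomial.X)).coeff t =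
        (d : ℝ) ^ t * P.coeff t + ((0 : ℤ) : ℝ)
      rw [hcf]; simp [mul_comm]
  have hcorr : ∀ ε : ℝ, 0 < ε → ∃ C : ℕ, 1 ≤ C ∧ ∃ A' : ℝ, 1 ≤ A' ∧ CorrQ F ld ε C A' := by
    intro ε hε
    obtain ⟨C, hC, B', hB', hCc⟩ := corr_famQ t ht A hanti hcomm hA1 hAt Γ hΓ hcpt f' hf'c hf'1 ε hε
    refine ⟨C, hC, B', hB', fun κ hκ hκ1 L hL i i' j hs => ?_⟩
    have h1 := hCc κ hκ hκ1 L hL i.1.2.2 i'.1.2.2 i.2 i'.2 i.1.1 i.1.2.1 i'.1.1 i'.1.2.1 1 1 j
      (by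
        intro q hq
        rw [mem_Icc] at hq
        have := hs q hq.1 (by exact_mod_cast hq.2)
        simpa using this)
    simpa only [one_mul] using h1
  obtain ⟨v, hv, K, hK, hmain⟩ := small_sets F ld t ht hF1 hdil hcorr (ε / (B + 1)) (by positivity)
  have hKr : (1 : ℝ) ≤ K := by exact_mod_cast hK
  refine ⟨v, 1 / (2 * K), hv, by positivity, K * 2 ^ K, (K * 2 ^ K) ^ 2, ?_⟩
  intro a ha hmul N H hH hHN R δ hR hδ hδ1 hRδ 𝒜 h𝒜
  have hR0 : 0 < R := by linarith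
  obtain ⟨u, hu⟩ : ∃ u : ℝ, u = 1 / (2 * R) := ⟨_, rfl⟩
  have hu0 : 0 < u := by rw [hu]; positivity
  have hu2 : u ≤ 1 / 2 := by
    rw [hu]
    apply one_div_le_one_div_of_le (by norm_num)
    linarith
  have h2u : 2 * u = 1 / R := by rw [hu]; field_simp
  have hiu : 1 / u = 2 * R := by rw [hu]; field_simp
  have hKK : K ≤ K * 2 ^ K := Nat.le_mul_of_pos_right _ (by positivity)
  -- the size of `H`
  have hHr : ((K : ℝ) * 2 ^ K) ^ 2 ≤ H := by exact_mod_cast hH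
  have hK2 : (1 : ℝ) ≤ K * 2 ^ K := one_le_mul_of_one_le_of_one_le hKr (one_le_pow₀ (by norm_num))
  have hH1 : (1 : ℝ) ≤ H := le_trans (one_le_pow₀ hK2) hHr
  have hHc : (K : ℝ) * (1 / (u * δ)) ^ K ≤ H := by
    have e : 1 / (u * δ) = 2 * (R / δ) := by
      rw [hu]; field_simp
    rw [e, mul_pow]
    have h1 : (R / δ) ^ K ≤ (H : ℝ) ^ (1 / 2 : ℝ) := by
      calc (R / δ) ^ K ≤ ((H : ℝ) ^ (1 / (2 * (K : ℝ)))) ^ K := by gcongr
        _ = (H : ℝ) ^ (1 / 2 : ℝ) := by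
            rw [← Real.rpow_mul_natCast (by linarith)]
            congr 1
            field_simp
    have h2 : (K : ℝ) * 2 ^ K ≤ (H : ℝ) ^ (1 / 2 : ℝ) := by
      rw [← Real.sqrt_eq_rpow]
      exact Real.le_sqrt_of_sq_le hHr
    calc (K : ℝ) * (2 ^ K * (R / δ) ^ K) = (K * 2 ^ K) * (R / δ) ^ K := by ring
      _ ≤ (H : ℝ) ^ (1 / 2 : ℝ) * (H : ℝ) ^ (1 / 2 : ℝ) := by gcongr
      _ = H := by
          rw [← Real.rpow_add (by linarith)]
          norm_num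
  have hnd : ∀ α y : ℝ, nd (α - y) ≤ 2 * u → ∃ b : ℤ, |α - y - b| ≤ 1 / R := by
    intro α y h
    obtain ⟨b, hb⟩ := nd_exists (α - y)
    refine ⟨b, ?_⟩
    rw [← hb, ← h2u]
    exact h
  have key := hmain a ha (fun p hp k hk => hmul p k hp hk) u δ hu0 hu2 hδ hδ1 H N hHc hHN 𝒜
    (fun j => (MeasureTheory.measure_mono (by
      rintro y ⟨hy, α, hα, h⟩
      exact ⟨hy, α, hα, hnd α y h⟩)).trans (h𝒜 j))
  -- comparison of the suprema
  have hlev : (K : ℝ) * (1 / u) ^ K ≤ ((K * 2 ^ K : ℕ) : ℝ) * R ^ (K * 2 ^ K) := by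
    rw [hiu, mul_pow]
    have h1 : R ^ K ≤ R ^ (K * 2 ^ K) := pow_le_pow_right₀ hR hKK
    push_cast
    calc (K : ℝ) * (2 ^ K * R ^ K) = (K * 2 ^ K) * R ^ K := by ring
      _ ≤ _ := by gcongr
  have h4 : ∀ n : ℕ, (⨆ i : {i : G × G × Polynomial ℝ //
        i ∈ Index G t (𝒜 (Nat.log 4 n)) (((K * 2 ^ K : ℕ) : ℝ) * R ^ (K * 2 ^ K)) δ},
          ‖∑ h ∈ Finset.Icc 1 H,
            f (QuotientGroup.mk (i.1.1 ^ (n + h) * i.1.2.1) : G ⧸ Γ) *
            Complex.exp (2 * Real.pi * Complex.I * ((i.1.2.2.eval ((n + h : ℕ) : ℝ) : ℝ) : ℂ)) *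
              a (n + h)‖) ≤
      (B + 1) * GS F a (S0 ld 𝒜 (K * (1 / u) ^ K) δ n) H n := by
    intro n
    apply Real.iSup_le
    · rintro ⟨⟨g, x, P⟩, hP, hα, hmin⟩
      set i : I := ⟨(g, x, P), hP⟩ with hi
      have hiS : i ∈ S0 ld 𝒜 (K * (1 / u) ^ K) δ n := by
        refine ⟨fun q hq1 hq2 => ?_, hα⟩
        obtain ⟨b, hb⟩ := nd_exists ((q : ℝ) * ld i)
        rw [hb]
        exact hmin q hq1 (hq2.trans hlev) b
      have e : ∑ h ∈ Finset.Icc 1 H,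
            f (QuotientGroup.mk (g ^ (n + h) * x) : G ⧸ Γ) *
            Complex.exp (2 * Real.pi * Complex.I * ((P.eval ((n + h : ℕ) : ℝ) : ℝ) : ℂ)) *
              a (n + h) = ((B + 1 : ℝ) : ℂ) * ∑ h ∈ Icc 1 H, F i (n + h) * a (n + h) := by
        rw [mul_sum]
        refine sum_congr rfl fun h _ => ?_
        have e0 : F i (n + h) = ee (P.eval ((n + h : ℕ) : ℝ)) *
          f' ((g ^ (n + h) * x : G) : G ⧸ Γ) := rfl
        rw [e0, hf', ee]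
        beta_reduce
        have hne : ((B + 1 : ℝ) : ℂ) ≠ 0 := by exact_mod_cast hB1.ne'
        field_simp
      change ‖∑ h ∈ Finset.Icc 1 H,
            f (QuotientGroup.mk (g ^ (n + h) * x) : G ⧸ Γ) *
            Complex.exp (2 * Real.pi * Complex.I * ((P.eval ((n + h : ℕ) : ℝ) : ℝ) : ℂ)) *
              a (n + h)‖ ≤ _
      rw [e, norm_mul, Complex.norm_real, Real.norm_eq_abs, abs_of_pos hB1]
      exact mul_le_mul_of_nonneg_left (ws_le_GS F a hF1 ha _ H n i hiS) hB1.le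
    · exact mul_nonneg hB1.le (GS_nonneg _ _ _ _ _)
  calc _ ≤ ∑ n ∈ Icc 1 N, (1 / (n : ℝ)) *
        ((B + 1) * GS F a (S0 ld 𝒜 (K * (1 / u) ^ K) δ n) H n) :=
        sum_le_sum fun n _ => mul_le_mul_of_nonneg_left (h4 n) (by positivity)
    _ = (B + 1) * ∑ n ∈ Icc 1 N, (1 / (n : ℝ)) *
        GS F a (S0 ld 𝒜 (K * (1 / u) ^ K) δ n) H n := by
        rw [mul_sum]
        exact sum_congr rfl fun n _ => by ring
    _ ≤ (B + 1) * (ε / (B + 1) * H * Real.log N) := mul_le_mul_of_nonneg_left key hB1.le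
    _ = _ := by field_simp

end Pool.Agent.Lib.MP_663568_sm
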